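import Pool.Agent.H34.PS.Targets

/-!
# CT: the number of elements of `SA` which are not in `SB`
-/

set_option autoImplicit false

open Finset

namespace Pool.Agent.H34.PSQ

open Pool.Agent.H34.PS

theorem two_not_sq : ¬ IsSquare (2 : ℕ) := by
  rintro ⟨r, hr⟩
  have h1 : r ≤ 1 := by
    by_contra h
    have : 2 ≤ r := by omega
    nlinarith
  interval_cases r <;> omega

/-- Cauchy and Schwarz for the fibres of a map -/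
theorem card_sq_le_fib {α : Type} [DecidableEq α] (G : Finset α) (φ : α → ℕ) :
    ((G.card : ℝ)) ^ 2 ≤ ((G.image φ).card : ℝ) *
      (((G ×ˢ G).filter fun p : α × α => φ p.1 = φ p.2).card : ℝ) := by
  have h1 : (G.card : ℝ) = ∑ n ∈ G.image φ, ((G.filter fun a => φ a = n).card : ℝ) := by
    rw [card_eq_sum_card_image φ G]
    push_cast
    rfl
  have h2 : (((G ×ˢ G).filter fun p : α × α => φ p.1 = φ p.2).card : ℝ) =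
      ∑ n ∈ G.image φ, ((G.filter fun a => φ a = n).card : ℝ) ^ 2 := by
    have h3 : ((G ×ˢ G).filter fun p : α × α => φ p.1 = φ p.2) =
        (G.image φ).biUnion fun n =>
          (G.filter fun a => φ a = n) ×ˢ (G.filter fun a => φ a = n) := by
      ext ⟨a, b⟩
      simp only [mem_filter, mem_product, mem_biUnion, mem_image]
      constructor
      · rintro ⟨⟨ha, hb⟩, hab⟩
        exact ⟨φ a, ⟨a, ha, rfl⟩, ⟨ha, rfl⟩, ⟨hb, hab.symm⟩⟩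
      · rintro ⟨n, _, ⟨ha, h4⟩, ⟨hb, h5⟩⟩
        exact ⟨⟨ha, hb⟩, by rw [h4, h5]⟩
    rw [h3, card_biUnion]
    · push_cast
      refine sum_congr rfl fun n _ => ?_
      rw [card_product]
      push_cast
      ring
    · intro n _ m _ hnm
      change Disjoint _ _
      rw [disjoint_left]
      rintro ⟨a, b⟩ h4 h5
      simp only [mem_product, mem_filter] at h4 h5
      exact hnm (h4.1.2.symm.trans h5.1.2)
  rw [h1, h2]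
  exact sq_sum_le_card_mul_sum_sq

open Classical in
theorem pf_CT (hF : T_FN) (hE : T_EN) : T_CT := by
  obtain ⟨hSA, hF2⟩ := hF 2 1 1 two_not_sq (by norm_num)
  obtain ⟨Y₀, hY₀⟩ := hF2 (1 / 2) (by norm_num)
  refine ⟨1 / 8704, by norm_num, (4 * (Y₀ + 1) + 4) ^ 2, ?_⟩
  intro X hX
  obtain ⟨Y, hY⟩ : ∃ Y : ℕ, Y = Nat.sqrt X / 4 := ⟨_, rfl⟩
  have h1 : 4 * (Y₀ + 1) + 4 ≤ Nat.sqrt X := by
    rw [Nat.le_sqrt]
    nlinarith [hX]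
  have hYY : Y₀ ≤ Y ∧ 1 ≤ Y := by omega
  have h2 : 16 * Y ^ 2 ≤ X := by
    have h3 : 4 * Y ≤ Nat.sqrt X := by omega
    have h4 := Nat.sqrt_le' X
    calc 16 * Y ^ 2 = (4 * Y) ^ 2 := by ring
      _ ≤ (Nat.sqrt X) ^ 2 := Nat.pow_le_pow_left h3 2
      _ ≤ X := h4
  have h3 : X ≤ 64 * Y ^ 2 := by
    have h4 : Nat.sqrt X + 1 ≤ 8 * Y := by omega
    have h5 := Nat.lt_succ_sqrt' X
    have h6 : (Nat.sqrt X + 1) ^ 2 ≤ (8 * Y) ^ 2 := Nat.pow_le_pow_left h4 2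
    have h7 : (8 * Y) ^ 2 = 64 * Y ^ 2 := by ring
    rw [Nat.succ_eq_add_one] at h5
    omega
  have hbad := hY₀ Y hYY.1
  obtain ⟨G, hG⟩ : ∃ G : Finset (ℕ × ℕ), G = (Icc 1 Y ×ˢ Icc 1 Y).filter fun a : ℕ × ℕ =>
      ¬ (2 ^ 3 * (a.1 ^ 2 + a.2 ^ 2) ∈ SB) := ⟨_, rfl⟩
  have hYr : (1 : ℝ) ≤ (Y : ℝ) := by exact_mod_cast hYY.2
  have hGc : (1 / 2 : ℝ) * (Y : ℝ) ^ 2 ≤ (G.card : ℝ) := by
    obtain ⟨F, hF'⟩ : ∃ F : Finset (ℕ × ℕ), F = (Icc 1 Y ×ˢ Icc 1 Y).filter fun a : ℕ × ℕ =>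
      2 ^ 3 * (a.1 ^ 2 + a.2 ^ 2) ∈ SB := ⟨_, rfl⟩
    have h7 : (F.card : ℝ) ≤ 1 / 2 * (Y : ℝ) ^ 2 := by
      rw [hF']
      exact hbad
    have h4 : F.card + G.card = Y * Y := by
      have h5 := card_filter_add_card_filter_not (s := Icc 1 Y ×ˢ Icc 1 Y)
        (fun a : ℕ × ℕ => 2 ^ 3 * (a.1 ^ 2 + a.2 ^ 2) ∈ SB)
      rw [← hG, ← hF', card_product, Nat.card_Icc] at h5
      have h6 : Y + 1 - 1 = Y := by omega
      rw [h6] at h5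
      exact h5
    have h5 : (F.card : ℝ) + (G.card : ℝ) = (Y : ℝ) * Y := by exact_mod_cast h4
    have h8 : (Y : ℝ) ^ 2 = (Y : ℝ) * Y := sq _
    rw [h8] at h7 ⊢
    linarith [h5, h7]
  have hCS := card_sq_le_fib G fun a : ℕ × ℕ => 2 ^ 3 * (a.1 ^ 2 + a.2 ^ 2)
  have hQ : (((G ×ˢ G).filter fun p : (ℕ × ℕ) × (ℕ × ℕ) =>
      2 ^ 3 * (p.1.1 ^ 2 + p.1.2 ^ 2) = 2 ^ 3 * (p.2.1 ^ 2 + p.2.2 ^ 2)).card : ℝ) ≤
      17 * (Y : ℝ) ^ 2 * (1 + Real.log (2 * Y)) := by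
    refine le_trans ?_ (hE Y hYY.2)
    have h4 : ((G ×ˢ G).filter fun p : (ℕ × ℕ) × (ℕ × ℕ) =>
      2 ^ 3 * (p.1.1 ^ 2 + p.1.2 ^ 2) = 2 ^ 3 * (p.2.1 ^ 2 + p.2.2 ^ 2)).card ≤
      ((Icc 1 Y ×ˢ Icc 1 Y ×ˢ Icc 1 Y ×ˢ Icc 1 Y).filter
        fun a : ℕ × ℕ × ℕ × ℕ => a.1 ^ 2 + a.2.1 ^ 2 = a.2.2.1 ^ 2 + a.2.2.2 ^ 2).card := by
      apply card_le_card_of_injOn (fun p : (ℕ × ℕ) × (ℕ × ℕ) => (p.1.1, p.1.2, p.2.1, p.2.2))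
      · rintro ⟨⟨y, w⟩, ⟨y', w'⟩⟩ hp
        simp only [coe_filter, mem_product, Set.mem_ofPred_eq, hG, mem_filter] at hp ⊢
        obtain ⟨⟨⟨⟨h5, h6⟩, _⟩, ⟨⟨h7, h8⟩, _⟩⟩, h9⟩ := hp
        exact ⟨⟨h5, h6, h7, h8⟩, by omega⟩
      · rintro ⟨⟨y, w⟩, ⟨y', w'⟩⟩ _ ⟨⟨y1, w1⟩, ⟨y1', w1'⟩⟩ _ h5
        simp only [Prod.mk.injEq] at h5 ⊢
        exact ⟨⟨h5.1, h5.2.1⟩, ⟨h5.2.2.1, h5.2.2.2⟩⟩
    exact_mod_cast h4
  have hI : (G.image fun a : ℕ × ℕ => 2 ^ 3 * (a.1 ^ 2 + a.2 ^ 2)) ⊆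
      (Icc 1 X).filter fun n : ℕ => n ∈ SA ∧ n ∉ SB := by
    intro n hn
    rw [mem_image] at hn
    obtain ⟨⟨y, w⟩, ha, rfl⟩ := hn
    rw [hG, mem_filter, mem_product, mem_Icc, mem_Icc] at ha
    obtain ⟨⟨⟨hy1, hy2⟩, ⟨hw1, hw2⟩⟩, hns⟩ := ha
    simp only at hy1 hy2 hw1 hw2 hns
    rw [mem_filter, mem_Icc]
    refine ⟨⟨?_, ?_⟩, hSA y w hy1 hw1, hns⟩
    · have : 1 ≤ y ^ 2 := Nat.one_le_pow _ _ hy1
      simp only
      omega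
    · have h4 : y ^ 2 ≤ Y ^ 2 := Nat.pow_le_pow_left hy2 2
      have h5 : w ^ 2 ≤ Y ^ 2 := Nat.pow_le_pow_left hw2 2
      simp only
      omega
  have hIc : (((G.image fun a : ℕ × ℕ => 2 ^ 3 * (a.1 ^ 2 + a.2 ^ 2)).card : ℕ) : ℝ) ≤
      (((Icc 1 X).filter fun n : ℕ => n ∈ SA ∧ n ∉ SB).card : ℝ) := by
    exact_mod_cast card_le_card hI
  refine le_trans ?_ hIc
  -- the estimate
  have hX64 : (64 : ℝ) ≤ X := by
    have h4 : 64 ≤ X := by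
      have h5 : (8 : ℕ) ^ 2 ≤ (4 * (Y₀ + 1) + 4) ^ 2 := Nat.pow_le_pow_left (by omega) 2
      omega
    exact_mod_cast h4
  have hlogX : 1 ≤ Real.log X := by
    rw [Real.le_log_iff_exp_le (by linarith)]
    have := Real.exp_one_lt_d9
    linarith
  have hlogY : 1 + Real.log (2 * Y) ≤ 2 * Real.log X := by
    have h4 : Real.log (2 * Y) ≤ Real.log X := by
      apply Real.log_le_log (by linarith)
      have h5 : 2 * Y ≤ X := by nlinarith [h2, hYY.2]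
      exact_mod_cast h5
    linarith
  have hlogY0 : 0 < 1 + Real.log (2 * Y) := by
    have h4 : 0 ≤ Real.log (2 * Y) := Real.log_nonneg (by linarith)
    linarith
  obtain ⟨N, hN⟩ : ∃ N : ℝ, N = (((G.image fun a : ℕ × ℕ =>
    2 ^ 3 * (a.1 ^ 2 + a.2 ^ 2)).card : ℕ) : ℝ) := ⟨_, rfl⟩
  rw [← hN] at hCS ⊢
  have hN0 : 0 ≤ N := by
    rw [hN]
    positivity
  have h4 : ((1 / 2 : ℝ) * (Y : ℝ) ^ 2) ^ 2 ≤ N * (17 * (Y : ℝ) ^ 2 * (2 * Real.log X)) := by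
    calc ((1 / 2 : ℝ) * (Y : ℝ) ^ 2) ^ 2 ≤ (G.card : ℝ) ^ 2 :=
          pow_le_pow_left₀ (by positivity) hGc 2
      _ ≤ N * _ := hCS
      _ ≤ N * (17 * (Y : ℝ) ^ 2 * (1 + Real.log (2 * Y))) :=
          mul_le_mul_of_nonneg_left hQ hN0
      _ ≤ N * (17 * (Y : ℝ) ^ 2 * (2 * Real.log X)) := by
          apply mul_le_mul_of_nonneg_left _ hN0
          apply mul_le_mul_of_nonneg_left hlogY
          positivity
  have hY2 : 0 < (Y : ℝ) ^ 2 := by positivity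
  have h5 : (Y : ℝ) ^ 2 ≤ N * (136 * Real.log X) := by
    have h6 : (Y : ℝ) ^ 2 * (Y : ℝ) ^ 2 ≤ (Y : ℝ) ^ 2 * (N * (136 * Real.log X)) := by
      nlinarith [h4]
    exact le_of_mul_le_mul_left h6 hY2
  have h6 : (X : ℝ) ≤ 64 * (Y : ℝ) ^ 2 := by exact_mod_cast h3
  rw [div_le_iff₀ (by linarith)]
  nlinarith [h5, h6]

end Pool.Agent.H34.PSQ
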