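import Pool.Agent.H34.PS.Targets

/-!
# EX: a prime which divides exactly
-/

set_option autoImplicit false

open Finset

namespace Pool.Agent.H34.PSQ

open Pool.Agent.H34.PS

theorem pf_EX : T_EX := by
  intro q b x v n hq hq4 hn ⟨h1, h2⟩
  haveI : Fact q.Prime := ⟨hq⟩
  subst hn
  have hx : q ∣ b ^ 3 * v ^ 2 → q ∣ x := fun h =>
    hq.dvd_of_dvd_pow ((Nat.dvd_add_left h).mp h1)
  have hqb : ¬ q ∣ b := by
    intro h
    apply h2
    have h3 : q ∣ x := hx ((dvd_pow h (by norm_num)).mul_right _)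
    exact dvd_add (pow_dvd_pow_of_dvd h3 2)
      ((Dvd.dvd.trans (pow_dvd_pow q (by norm_num : 2 ≤ 3)) (pow_dvd_pow_of_dvd h 3)).mul_right _)
  have hqv : ¬ q ∣ v := by
    intro h
    apply h2
    have h3 : q ∣ x := hx ((dvd_pow h (by norm_num)).mul_left _)
    exact dvd_add (pow_dvd_pow_of_dvd h3 2) ((pow_dvd_pow_of_dvd h 2).mul_left _)
  have hb0 : (b : ZMod q) ≠ 0 := by
    rwa [Ne, ZMod.natCast_eq_zero_iff]
  have hv0 : (v : ZMod q) ≠ 0 := by
    rwa [Ne, ZMod.natCast_eq_zero_iff]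
  have h3 : ((x ^ 2 + b ^ 3 * v ^ 2 : ℕ) : ZMod q) = 0 := (ZMod.natCast_eq_zero_iff _ _).mpr h1
  push_cast at h3
  obtain ⟨i, hi⟩ : IsSquare (-1 : ZMod q) := ZMod.exists_sq_eq_neg_one_iff.mpr (by omega)
  have h4 : IsSquare ((b : ℤ) : ZMod q) := by
    refine ⟨i * x / (b * v), ?_⟩
    rw [Int.cast_natCast]
    field_simp
    have h5 : (x : ZMod q) ^ 2 = - (b ^ 3 * v ^ 2) := by linear_combination h3
    have h6 : i ^ 2 = -1 := by rw [sq]; exact hi.symm
    rw [h6, h5]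
    ring
  have h5 : ((b : ℤ) : ZMod q) ≠ 0 := by rwa [Int.cast_natCast]
  have h6 : legendreSym q (b : ℤ) = 1 := (legendreSym.eq_one_iff q h5).mpr h4
  unfold chi
  rw [if_pos (by omega), ← jacobiSym.legendreSym.to_jacobiSym, h6]
  norm_num

end Pool.Agent.H34.PSQ
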