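import Pool.Agent.H34.PS.Targets

/-!
# PW: the shape of non-square powerful numbers
-/

set_option autoImplicit false

open Finset

namespace Pool.Agent.H34.PSQ

open Pool.Agent.H34.PS

theorem pf_PW : T_PW := by
  refine ⟨?_, ?_⟩
  · intro c ⟨⟨hc0, hc⟩, hns⟩
    obtain ⟨b, s, hbs, hb⟩ := Nat.sq_mul_squarefree c
    have hs0 : s ≠ 0 := by
      rintro rfl
      simp at hbs
      omega
    have hb0 : b ≠ 0 := hb.ne_zero
    have hdvd : b ∣ s := by
      rw [← Nat.prod_primeFactors_of_squarefree hb]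
      refine Finset.prod_primes_dvd s (fun p hp => (Nat.prime_of_mem_primeFactors hp).prime) ?_
      intro p hp
      have hpp := Nat.prime_of_mem_primeFactors hp
      have hpb := Nat.dvd_of_mem_primeFactors hp
      by_contra hps
      have h1 : p ∣ c := hbs ▸ hpb.mul_left _
      have h2 := hc p hpp h1
      rw [← hbs] at h2
      have h3 : Nat.Coprime (p ^ 2) (s ^ 2) := Nat.Coprime.pow 2 2
        ((Nat.Prime.coprime_iff_not_dvd hpp).mpr hps)
      have h4 : p ^ 2 ∣ b := h3.dvd_of_dvd_mul_left h2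
      rw [sq] at h4
      have h5 := hb p h4
      exact hpp.one_lt.ne' (Nat.isUnit_iff.mp h5)
    obtain ⟨v, rfl⟩ := hdvd
    refine ⟨b, v, ?_, hb, ?_, ?_⟩
    · by_contra h
      have h1 : b = 1 := by omega
      subst h1
      exact hns ⟨v, by rw [← hbs]; ring⟩
    · rcases Nat.eq_zero_or_pos v with rfl | h
      · simp at hs0
      · exact h
    · rw [← hbs]
      ring
  · intro β y hβ hy
    have hβ0 : β ≠ 0 := by
      rintro rfl
      exact hβ ⟨0, rfl⟩
    refine ⟨⟨by positivity, ?_⟩, ?_⟩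
    · intro p hp hd
      rcases (Nat.Prime.dvd_mul hp).mp hd with h | h
      · have h1 := hp.dvd_of_dvd_pow h
        exact (Dvd.dvd.trans (pow_dvd_pow p (by norm_num : 2 ≤ 3)) (pow_dvd_pow_of_dvd h1 3)).mul_right _
      · have h1 := hp.dvd_of_dvd_pow h
        exact (pow_dvd_pow_of_dvd h1 2).mul_left _
    · rintro ⟨s, hs⟩
      have h1 : β * (β * y) ^ 2 = s ^ 2 := by
        have h2 : β * (β * y) ^ 2 = β ^ 3 * y ^ 2 := by ring
        rw [h2, hs]
        ring
      have h2 : (β * y) ^ 2 ∣ s ^ 2 := ⟨β, by rw [← h1]; ring⟩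
      have h3 : β * y ∣ s := (Nat.pow_dvd_pow_iff (by norm_num)).mp h2
      obtain ⟨t, rfl⟩ := h3
      have h4 : 0 < (β * y) ^ 2 := by positivity
      have h5 : β = t ^ 2 := by
        have h6 : (β * y) ^ 2 * β = (β * y) ^ 2 * t ^ 2 := by
          calc (β * y) ^ 2 * β = β * (β * y) ^ 2 := by ring
            _ = (β * y * t) ^ 2 := h1
            _ = (β * y) ^ 2 * t ^ 2 := by ring
        exact Nat.eq_of_mul_eq_mul_left h4 h6
      exact hβ ⟨t, by rw [h5]; ring⟩

end Pool.Agent.H34.PSQ
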